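import Mathlib
import Pool.Agent.N741.HB.Stm

/-!
# HB/15: the counting theorem from the core theorem

Project HB (helper741); this file by helper222, after `Pool.Agent.Y902.GN.Gc2`.
-/

set_option autoImplicit false

namespace Pool.Agent.N222.HB

open Filter Pool.Agent.Y902.GN Pool.Agent.N741.HB

theorem sum_bd {n : ℕ} {y : ℝ} (hy : 1 ≤ y) {u a : Fin n → ℤ}
    (hu : ∀ i, ((|u i| : ℤ) : ℝ) ≤ Real.exp y) (ha : ∀ i, ((|a i| : ℤ) : ℝ) ≤ Real.exp y) :
    ((|∑ i, u i * a i| : ℤ) : ℝ) ≤ Real.exp (((n + 2 : ℕ) : ℝ) * y) := by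
  have h1 : |∑ i, u i * a i| ≤ ∑ i, |u i| * |a i| := by
    refine (Finset.abs_sum_le_sum_abs _ _).trans (le_of_eq ?_)
    exact Finset.sum_congr rfl fun i _ => abs_mul _ _
  have h2 : ((|∑ i, u i * a i| : ℤ) : ℝ) ≤ ∑ i, ((|u i| : ℤ) : ℝ) * ((|a i| : ℤ) : ℝ) := by
    exact_mod_cast h1
  have h3 : ∑ i : Fin n, ((|u i| : ℤ) : ℝ) * ((|a i| : ℤ) : ℝ) ≤
      ∑ _i : Fin n, Real.exp y * Real.exp y := by
    refine Finset.sum_le_sum fun i _ => mul_le_mul (hu i) (ha i) ?_ (Real.exp_pos _).le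
    exact_mod_cast abs_nonneg (a i)
  have h4 : ∑ _i : Fin n, Real.exp y * Real.exp y = (n : ℝ) * (Real.exp y * Real.exp y) := by
    simp
  have h5 : (n : ℝ) ≤ Real.exp (n * y) := by
    have h6 := Real.add_one_le_exp ((n : ℝ) * y)
    have h7 : (n : ℝ) * 1 ≤ (n : ℝ) * y := by gcongr
    linarith
  calc ((|∑ i, u i * a i| : ℤ) : ℝ) ≤ (n : ℝ) * (Real.exp y * Real.exp y) := by
        rw [← h4]; exact h2.trans h3
    _ ≤ Real.exp (n * y) * (Real.exp y * Real.exp y) := by gcongr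
    _ = Real.exp (((n + 2 : ℕ) : ℝ) * y) := by
        rw [← Real.exp_add, ← Real.exp_add]
        congr 1
        push_cast
        ring

section

variable {n N E R : ℕ} {δ : ℝ} {Y : ℕ} {u : Fin n → ℤ} {v : ℤ} {a : Fin n → ℤ}

theorem hb_nz (h : HbPt n N E R δ Y u v a) (i : Fin n) : a i ≠ 0 := by
  intro h0
  apply h.nvs {i} (Finset.singleton_nonempty i)
  rw [Finset.sum_singleton, h0, mul_zero]

theorem hb_n (h : HbPt n N E R δ Y u v a) : ∃ _ : Fin n, True := by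
  by_contra hcon
  push Not at hcon
  have := h.gcd 2 fun i => (hcon i).elim
  omega

theorem hb_sum (h : HbPt n N E R δ Y u v a) : ∑ i, u i * a i ≠ 0 := by
  obtain ⟨i, -⟩ := hb_n h
  exact h.nvs Finset.univ ⟨i, Finset.mem_univ i⟩

/-- normalised representations -/
theorem hb_norm (h : HbPt n N E R δ Y u v a) (hY : 1 ≤ Y) (hδ : 0 ≤ δ)
    (hu : ∀ i, ((|u i| : ℤ) : ℝ) ≤ Real.exp ((Y : ℝ) ^ δ)) (L : ℕ) :
    ∃ (s : Fin n → ℤ) (x : Fin N → ℕ) (e : Fin n → Fin N → ℕ) (s₀ : ℤ) (e₀ : Fin N → ℕ) (z : ℤ)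
      (r : ℕ), (∀ j, 1 ≤ x j ∧ x j ≤ Y) ∧ (∀ i, |s i| ≤ (Y : ℤ) ^ E) ∧ |s₀| ≤ (Y : ℤ) ^ E ∧
      (∀ i, a i = s i * ∏ j, (x j : ℤ) ^ e i j) ∧
      (∀ i j, (2 : ℝ) ^ e i j ≤ Real.exp ((Y : ℝ) ^ δ)) ∧
      (∀ j, (2 : ℝ) ^ e₀ j ≤ Real.exp ((Y : ℝ) ^ δ)) ∧ min R L ≤ r ∧
      r ≤ max (L + 1) (⌊((2 * (n + 2) : ℕ) : ℝ) * (Y : ℝ) ^ δ⌋₊ + 1) ∧
      ∑ i, u i * a i = v * ((s₀ * ∏ j, (x j : ℤ) ^ e₀ j) * z ^ r) := by
  obtain ⟨s, x, e, s₀, e₀, z, r, h1, h2, h3, h4, h5, h6, -, h8⟩ := h.rep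
  have hy1 : (1 : ℝ) ≤ (Y : ℝ) ^ δ := Real.one_le_rpow (by exact_mod_cast hY) hδ
  have hprod : ∀ e : Fin N → ℕ, ∏ j, (x j : ℤ) ^ e j =
      ∏ j, (x j : ℤ) ^ (if x j = 1 then 0 else e j) := by
    intro e
    refine Finset.prod_congr rfl fun j _ => ?_
    by_cases hj : x j = 1
    · simp [hj]
    · simp [hj]
  have hne := hb_sum h
  rw [h8] at hne
  have hv0 : v ≠ 0 := left_ne_zero_of_mul hne
  have hc0 : s₀ * ∏ j, (x j : ℤ) ^ e₀ j ≠ 0 := left_ne_zero_of_mul (right_ne_zero_of_mul hne)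
  have hz0 : z ^ r ≠ 0 := right_ne_zero_of_mul (right_ne_zero_of_mul hne)
  -- the exponents
  have hE : ∀ i j, (2 : ℝ) ^ (if x j = 1 then 0 else e i j) ≤ Real.exp ((Y : ℝ) ^ δ) := by
    intro i j
    by_cases hj : x j = 1
    · simp only [hj, if_true, pow_zero]
      exact Real.one_le_exp (by positivity)
    · simp only [hj, if_false]
      have hx : 2 ≤ x j := by have := (h1 j).1; omega
      have e1 : (x j : ℤ) ^ e i j ∣ a i := by
        rw [h4 i]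
        exact Dvd.dvd.mul_left (Finset.dvd_prod_of_mem (fun j => (x j : ℤ) ^ e i j)
          (Finset.mem_univ j)) _
      have e2 : (x j : ℤ) ^ e i j ≤ |a i| :=
        Int.le_of_dvd (abs_pos.2 (hb_nz h i)) ((dvd_abs _ _).2 e1)
      have e3 : (2 : ℤ) ^ e i j ≤ (x j : ℤ) ^ e i j := by
        exact_mod_cast Nat.pow_le_pow_left hx (e i j)
      have e4 : ((2 : ℤ) : ℝ) ^ e i j ≤ ((|a i| : ℤ) : ℝ) := by exact_mod_cast e3.trans e2
      refine le_trans ?_ (h.hi i)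
      push_cast at e4 ⊢
      exact e4
  have hE0 : ∀ j, (2 : ℝ) ^ (if x j = 1 then 0 else e₀ j) ≤ Real.exp ((Y : ℝ) ^ δ) := by
    intro j
    by_cases hj : x j = 1
    · simp only [hj, if_true, pow_zero]
      exact Real.one_le_exp (by positivity)
    · simp only [hj, if_false]
      have hx : 2 ≤ x j := by have := (h1 j).1; omega
      have e3 : (2 : ℝ) ^ e₀ j ≤ (x j : ℝ) ^ e₀ j :=
        pow_le_pow_left₀ (by norm_num) (by exact_mod_cast hx) _
      have e4 : (x j : ℝ) ^ e₀ j ≤ ∏ j, (x j : ℝ) ^ e₀ j := by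
        rw [← Finset.mul_prod_erase _ _ (Finset.mem_univ j)]
        refine le_mul_of_one_le_right (by positivity) ?_
        calc (1 : ℝ) = ∏ _i ∈ Finset.univ.erase j, (1 : ℝ) := by simp
          _ ≤ _ := Finset.prod_le_prod (fun _ _ => zero_le_one) fun i _ =>
            one_le_pow₀ (by exact_mod_cast (h1 i).1)
      exact e3.trans (e4.trans h5)
  have h4' : ∀ i, a i = s i * ∏ j, (x j : ℤ) ^ (if x j = 1 then 0 else e i j) := fun i => by
    rw [← hprod (e i)]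
    exact h4 i
  rw [hprod e₀] at h8
  -- the power
  have hzr : ∃ (z' : ℤ) (r' : ℕ), z' ^ r' = z ^ r ∧ min R L ≤ r' ∧
      r' ≤ max (L + 1) (⌊((2 * (n + 2) : ℕ) : ℝ) * (Y : ℝ) ^ δ⌋₊ + 1) := by
    by_cases hz : 2 ≤ |z|
    · refine ⟨z, r, rfl, (min_le_left _ _).trans h6, ?_⟩
      have k1 : |z| ^ r ≤ |∑ i, u i * a i| := by
        rw [h8, abs_mul, abs_mul, abs_pow]
        have k2 : 1 ≤ |v| := Int.one_le_abs hv0
        rw [hprod e₀] at hc0
        have k3 := Int.one_le_abs hc0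
        have k4 : 0 ≤ |z| ^ r := by positivity
        nlinarith [mul_le_mul k2 k3 (by norm_num) (abs_nonneg v)]
      have k5 : (2 : ℤ) ^ r ≤ |∑ i, u i * a i| :=
        (pow_le_pow_left₀ (by norm_num) hz r).trans k1
      have k6 : (2 : ℝ) ^ r ≤ ((|∑ i, u i * a i| : ℤ) : ℝ) := by exact_mod_cast k5
      have k7 := exp_bd k6 (sum_bd hy1 hu h.hi)
      have k8 : ((2 : ℕ) : ℝ) * (((n + 2 : ℕ) : ℝ) * (Y : ℝ) ^ δ) =
          ((2 * (n + 2) : ℕ) : ℝ) * (Y : ℝ) ^ δ := by push_cast; ring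
      rw [k8] at k7
      exact k7.le.trans (le_max_right _ _)
    · have hz1 : z ^ r = 1 ∨ z ^ r = -1 := by
        have k1 : |z| ≤ 1 := by omega
        have k2 : |z ^ r| ≤ 1 := by
          rw [abs_pow]
          exact pow_le_one₀ (abs_nonneg _) k1
        have k3 := Int.one_le_abs hz0
        have k4 : |z ^ r| = 1 := le_antisymm k2 k3
        exact (abs_eq (by norm_num)).mp k4
      rcases hz1 with hz1 | hz1
      · exact ⟨1, L, by rw [hz1, one_pow], min_le_right _ _,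
          (Nat.le_succ L).trans (le_max_left _ _)⟩
      · rcases Nat.even_or_odd L with hL | hL
        · refine ⟨-1, L + 1, ?_, (min_le_right _ _).trans (Nat.le_succ L), le_max_left _ _⟩
          rw [hz1]
          exact (hL.add_one).neg_one_pow
        · refine ⟨-1, L, ?_, min_le_right _ _, (Nat.le_succ L).trans (le_max_left _ _)⟩
          rw [hz1]
          exact hL.neg_one_pow
  obtain ⟨z', r', g1, g2, g3⟩ := hzr
  rw [← g1] at h8
  exact ⟨s, x, _, s₀, _, z', r', h1, h2, h3, h4', hE, hE0, g2, g3, h8⟩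

end

/-- the products for the extended points -/
theorem prod_ext {N n : ℕ} (x : Fin N → ℤ) (s : Fin n → ℤ) (s₀ : ℤ) (e : Fin N → ℕ)
    (e₀ : Fin N → ℕ) (k : ℕ) (i : Fin n) :
    ∏ q : Fin (N + n + 1), (Fin.append (Fin.append x s) (fun _ : Fin 1 => s₀) q) ^
      (Fin.append (Fin.append (fun j => e j + k * e₀ j) (fun i' => if i' = i then 1 else 0))
        (fun _ : Fin 1 => k) q) =
      (s i * ∏ j, x j ^ e j) * (s₀ * ∏ j, x j ^ e₀ j) ^ k := by
  rw [Fin.prod_univ_add]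
  simp only [Fin.append_left, Fin.append_right]
  rw [prod_append, Fin.prod_univ_one, mul_pow, ← Finset.prod_pow]
  have h1 : ∏ j, x j ^ (e j + k * e₀ j) = (∏ j, x j ^ e j) * ∏ j, (x j ^ e₀ j) ^ k := by
    rw [← Finset.prod_mul_distrib]
    refine Finset.prod_congr rfl fun j _ => ?_
    rw [pow_add, ← pow_mul, mul_comm k]
  rw [h1]
  ring

/-- **Few classes.** -/
theorem hb (hcore : S_core) : S_hb := by
  classical
  intro n N E ε hε
  by_contra hcon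
  push Not at hcon
  have hseq := fun ν : ℕ => hcon ν ν (1 / ((ν : ℝ) + 1)) (by positivity)
  choose Y0 hY1 u v hu hv0 hv T hT hTn hc using hseq
  have hY1' : ∀ ν, (1 : ℝ) ≤ (Y0 ν : ℝ) := fun ν => by exact_mod_cast hY1 ν
  have hδ : ∀ ν : ℕ, (0 : ℝ) ≤ 1 / ((ν : ℝ) + 1) := fun ν => by positivity
  have hpow : ∀ ν, (Y0 ν : ℝ) ^ (1 / ((ν : ℝ) + 1)) ≤ (Y0 ν : ℝ) := by
    intro ν
    calc (Y0 ν : ℝ) ^ (1 / ((ν : ℝ) + 1)) ≤ (Y0 ν : ℝ) ^ (1 : ℝ) := by
          apply Real.rpow_le_rpow_of_exponent_le (hY1' ν)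
          rw [div_le_one (by positivity)]
          have : (0 : ℝ) ≤ (ν : ℝ) := Nat.cast_nonneg _
          linarith
      _ = (Y0 ν : ℝ) := Real.rpow_one _
  have hpow1 : ∀ ν, 1 ≤ (Y0 ν : ℝ) ^ (1 / ((ν : ℝ) + 1)) := fun ν =>
    Real.one_le_rpow (hY1' ν) (hδ ν)
  have hYlarge : ∀ ν, ν ≤ 2 * Y0 ν := by
    intro ν
    have h1 : (1 : ℝ) ≤ (Y0 ν : ℝ) ^ ε := Real.one_le_rpow (hY1' ν) hε.le
    have h2 : 1 < (T ν).card := by exact_mod_cast lt_of_le_of_lt h1 (hc ν)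
    obtain ⟨a, ha, a', ha', hne⟩ := Finset.one_lt_card.1 h2
    have h3 := hT ν a ha
    have h4 := hT ν a' ha'
    exact y_large (fun i => ⟨hb_nz h3 i, (h3.hi i).trans (Real.exp_le_exp.2 (hpow ν))⟩)
      (fun i => ⟨hb_nz h4 i, (h4.hi i).trans (Real.exp_le_exp.2 (hpow ν))⟩)
      (hTn ν a ha a' ha' hne)
  have hY0 : ∀ m : ℕ, ∀ᶠ ν in (Uf : Filter ℕ), m ≤ Y0 ν := by
    intro m
    filter_upwards [ev_ge (2 * m)] with ν hν
    have := hYlarge ν
    omega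
  obtain ⟨Y, hYd⟩ : ∃ Y : ℕ → ℕ, ∀ ν, Y ν = Y0 ν ^ (E + 1) := ⟨_, fun _ => rfl⟩
  have hYY : ∀ ν, Y0 ν ≤ Y ν := fun ν => by
    rw [hYd]
    exact Nat.le_self_pow (by omega) _
  have hY : ∀ m : ℕ, ∀ᶠ ν in (Uf : Filter ℕ), m ≤ Y ν := fun m =>
    (hY0 m).mono fun ν hν => hν.trans (hYY ν)
  have hYYe : ∀ᶠ ν in (Uf : Filter ℕ), Y0 ν ≤ Y ν := Filter.Eventually.of_forall hYY
  have hbig : Big Y T := by
    refine big_of_card (ε := ε / (E + 1)) (by positivity) (hY 2) (Filter.Eventually.of_forall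
      fun ν => ?_)
    rw [hYd]
    push_cast
    rw [← Real.rpow_natCast, ← Real.rpow_mul (by positivity)]
    have : ((E + 1 : ℕ) : ℝ) * (ε / ((E : ℝ) + 1)) = ε := by
      push_cast
      field_simp
    rw [this]
    exact hc ν
  -- the bounds
  obtain ⟨F, hF⟩ : ∃ F : ℕ → ℕ, ∀ ν, F ν =
    ⌊((2 : ℕ) : ℝ) * (Y0 ν : ℝ) ^ (1 / ((ν : ℝ) + 1))⌋₊ + 1 := ⟨_, fun _ => rfl⟩
  obtain ⟨W, hW⟩ : ∃ W : ℕ → ℕ, ∀ ν, W ν =
    ⌊((2 * (n + 2) : ℕ) : ℝ) * (Y0 ν : ℝ) ^ (1 / ((ν : ℝ) + 1))⌋₊ + 1 := ⟨_, fun _ => rfl⟩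
  obtain ⟨L, hL⟩ : ∃ L : ℕ → ℕ, ∀ ν, L ν = Nat.log 2 (Y0 ν + 2) := ⟨_, fun _ => rfl⟩
  have fewF : Few Y F := by
    have h1 := (few_rpow hY0 2).mono_Y hYYe
    exact h1.mono (Filter.Eventually.of_forall fun ν => (hF ν).le)
  have fewW : Few Y W := by
    have h1 := (few_rpow hY0 (2 * (n + 2))).mono_Y hYYe
    exact h1.mono (Filter.Eventually.of_forall fun ν => (hW ν).le)
  have fewL : Few Y (fun ν => L ν + 1) := by
    have h1 : Few Y0 (fun ν => L ν + 1) := by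
      intro c
      filter_upwards [ev_log_pow hY0 c] with ν hν
      rw [hL]
      exact hν
    exact h1.mono_Y hYYe
  obtain ⟨B, hB⟩ : ∃ B : ℕ → ℕ, ∀ ν, B ν = (L ν + 1) + W ν := ⟨_, fun _ => rfl⟩
  have fewB : Few Y B := (Few.add hY fewL fewW).mono
    (Filter.Eventually.of_forall fun ν => (hB ν).le)
  -- representations
  choose! s x e s0 e0 z r hx hs hs0 ha he he0 hr1 hr2 heq using fun ν a (h : a ∈ T ν) =>
    hb_norm (hT ν a h) (hY1 ν) (hδ ν) (fun i => (hu ν i).2) (L ν)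
  have heb : ∀ ν, ∀ a ∈ T ν, ∀ i j, e ν a i j < F ν := by
    intro ν a h i j
    rw [hF]
    exact exp_bd (he ν a h i j) le_rfl
  have he0b : ∀ ν, ∀ a ∈ T ν, ∀ j, e0 ν a j < F ν := by
    intro ν a h j
    rw [hF]
    exact exp_bd (he0 ν a h j) le_rfl
  have hrb : ∀ ν, ∀ a ∈ T ν, r ν a ≤ B ν := by
    intro ν a h
    refine (hr2 ν a h).trans ?_
    rw [← hW, hB]
    omega
  -- constant exponents
  obtain ⟨T', h1, h2, h3⟩ := hbig.fiber (fun ν a => (e ν a, e0 ν a, r ν a))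
    (fun ν => (Fintype.piFinset fun _ : Fin n => Fintype.piFinset fun _ : Fin N =>
      Finset.range (F ν)) ×ˢ ((Fintype.piFinset fun _ : Fin N => Finset.range (F ν)) ×ˢ
        Finset.range (B ν + 1)))
    (Filter.Eventually.of_forall fun ν a h => by
      rw [Finset.mem_product, Finset.mem_product]
      refine ⟨?_, ?_, ?_⟩
      · rw [Fintype.mem_piFinset]
        intro i
        rw [Fintype.mem_piFinset]
        intro j
        rw [Finset.mem_range]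
        exact heb ν a h i j
      · rw [Fintype.mem_piFinset]
        intro j
        rw [Finset.mem_range]
        exact he0b ν a h j
      · rw [Finset.mem_range]
        exact Nat.lt_succ_of_le (hrb ν a h)) (by
      have h4 := ((fewF.pow N).pow n).mul ((fewF.pow N).mul (Few.add hY fewB (Few.const hY 1)))
      refine h4.mono (Filter.Eventually.of_forall fun ν => ?_)
      rw [Finset.card_product, Finset.card_product, Fintype.card_piFinset_const,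
        Fintype.card_piFinset_const, Finset.card_range, Finset.card_range])
  obtain ⟨qq, hqq⟩ : ∃ qq : ℕ → (Fin n → Fin N → ℕ) × (Fin N → ℕ) × ℕ,
      ∀ᶠ ν in (Uf : Filter ℕ), (∀ a ∈ T' ν, (e ν a, e0 ν a, r ν a) = qq ν) := by
    have h4 : ∀ᶠ ν in (Uf : Filter ℕ), ∃ qq : (Fin n → Fin N → ℕ) × (Fin N → ℕ) × ℕ,
        ∀ a ∈ T' ν, (e ν a, e0 ν a, r ν a) = qq := by
      filter_upwards [h3, h2.nonempty] with ν a b
      obtain ⟨p0, hp0⟩ := b
      exact ⟨(e ν p0, e0 ν p0, r ν p0), fun p hp => a p hp p0 hp0⟩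
    exact h4.choice
  obtain ⟨e1, he1d⟩ : ∃ e1 : ℕ → Fin n → Fin N → ℕ, ∀ ν, e1 ν = (qq ν).1 := ⟨_, fun _ => rfl⟩
  obtain ⟨e2, he2d⟩ : ∃ e2 : ℕ → Fin N → ℕ, ∀ ν, e2 ν = (qq ν).2.1 := ⟨_, fun _ => rfl⟩
  obtain ⟨r1, hr1d⟩ : ∃ r1 : ℕ → ℕ, ∀ ν, r1 ν = (qq ν).2.2 := ⟨_, fun _ => rfl⟩
  have hcst : ∀ᶠ ν in (Uf : Filter ℕ), ∀ a ∈ T' ν, e ν a = e1 ν ∧ e0 ν a = e2 ν ∧
      r ν a = r1 ν := by
    filter_upwards [hqq] with ν b a h
    rw [he1d, he2d, hr1d, ← b a h]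
    exact ⟨rfl, rfl, rfl⟩
  have hbds : ∀ᶠ ν in (Uf : Filter ℕ), (∀ i j, e1 ν i j ≤ F ν) ∧ (∀ j, e2 ν j ≤ F ν) ∧
      r1 ν ≤ B ν ∧ min ν (L ν) ≤ r1 ν := by
    filter_upwards [hcst, h1, h2.nonempty] with ν a b c
    obtain ⟨p0, hp0⟩ := c
    obtain ⟨a1, a2, a3⟩ := a p0 hp0
    refine ⟨fun i j => ?_, fun j => ?_, ?_, ?_⟩
    · rw [← a1]; exact (heb ν p0 (b hp0) i j).le
    · rw [← a2]; exact (he0b ν p0 (b hp0) j).le
    · rw [← a3]; exact hrb ν p0 (b hp0)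
    · rw [← a3]; exact hr1 ν p0 (b hp0)
  have hrinf : ∀ m : ℕ, ∀ᶠ ν in (Uf : Filter ℕ), m ≤ r1 ν := by
    intro m
    filter_upwards [hbds, ev_ge m, hY0 (2 ^ m)] with ν b c d
    have h4 : m ≤ L ν := by
      rw [hL]
      exact Nat.le_log_of_pow_le (by norm_num) (by omega)
    exact (le_min c h4).trans b.2.2.2
  have fewr : Few Y r1 := fewB.mono (by filter_upwards [hbds] with ν b using b.2.2.1)
  -- the points
  obtain ⟨pt, hpt⟩ : ∃ pt : ℕ → (Fin n → ℤ) → Fin (N + n + 1) → ℤ, ∀ ν a, pt ν a =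
      Fin.append (Fin.append (fun j => (x ν a j : ℤ)) (s ν a)) (fun _ : Fin 1 => s0 ν a) :=
    ⟨_, fun _ _ => rfl⟩
  obtain ⟨ee, hee⟩ : ∃ ee : ℕ → Fin n → Fin (N + n + 1) → ℕ, ∀ ν i, ee ν i =
      Fin.append (Fin.append (fun j => e1 ν i j + (r1 ν - 1) * e2 ν j)
        (fun i' => if i' = i then 1 else 0)) (fun _ : Fin 1 => r1 ν - 1) := ⟨_, fun _ _ => rfl⟩
  obtain ⟨c0, hc0⟩ : ∃ c0 : ℕ → (Fin n → ℤ) → ℤ, ∀ ν a, c0 ν a =
    s0 ν a * ∏ j, (x ν a j : ℤ) ^ e2 ν j := ⟨_, fun _ _ => rfl⟩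
  have hprod : ∀ᶠ ν in (Uf : Filter ℕ), ∀ a ∈ T' ν, ∀ i,
      ∏ q, pt ν a q ^ ee ν i q = a i * c0 ν a ^ (r1 ν - 1) := by
    filter_upwards [hcst, h1] with ν b c a h i
    rw [hpt, hee, prod_ext, hc0]
    congr 1
    rw [ha ν a (c h) i, (b a h).1]
  have heq' : ∀ᶠ ν in (Uf : Filter ℕ), ∀ a ∈ T' ν,
      ∑ i, u ν i * a i = v ν * (c0 ν a * z ν a ^ r1 ν) := by
    filter_upwards [hcst, h1] with ν b c a h
    rw [hc0, ← (b a h).2.1, ← (b a h).2.2]
    exact heq ν a (c h)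
  have hinj : ∀ᶠ ν in (Uf : Filter ℕ), Set.InjOn (pt ν) (T' ν) := by
    filter_upwards [hcst, h1] with ν b c a h a' h' hpp
    rw [hpt, hpt] at hpp
    have k1 : ∀ j, x ν a j = x ν a' j := by
      intro j
      have := congrFun hpp (Fin.castAdd 1 (Fin.castAdd n j))
      rw [Fin.append_left, Fin.append_left, Fin.append_left, Fin.append_left] at this
      exact_mod_cast this
    have k2 : ∀ i, s ν a i = s ν a' i := by
      intro i
      have := congrFun hpp (Fin.castAdd 1 (Fin.natAdd N i))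
      rw [Fin.append_left, Fin.append_left, Fin.append_right, Fin.append_right] at this
      exact this
    funext i
    rw [ha ν a (c h) i, ha ν a' (c h') i, (b a h).1, (b a' h').1, k2 i]
    congr 1
    exact Finset.prod_congr rfl fun j _ => by rw [k1 j]
  have hOm := big_image h2 pt hinj
  have hne : ∀ ν, ∀ a ∈ T ν, s0 ν a ≠ 0 := by
    intro ν a h h0
    apply hb_sum (hT ν a h)
    rw [heq ν a h, h0]
    ring
  have hb : Bdd Y (fun ν => (T' ν).image (pt ν)) := by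
    filter_upwards [h1] with ν c t ht q
    obtain ⟨a, h, rfl⟩ := Finset.mem_image.1 ht
    have hYE : (Y0 ν : ℤ) ^ E ≤ (Y ν : ℤ) := by
      rw [hYd]
      push_cast
      exact pow_le_pow_right₀ (by exact_mod_cast hY1 ν) (by omega)
    rw [hpt]
    refine Fin.addCases (fun q => ?_) (fun q => ?_) q
    · rw [Fin.append_left]
      refine Fin.addCases (fun j => ?_) (fun i => ?_) q
      · rw [Fin.append_left]
        have h6 := hx ν a (c h) j
        refine ⟨?_, ?_⟩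
        · have : x ν a j ≠ 0 := by omega
          exact_mod_cast this
        · rw [abs_of_nonneg (by positivity)]
          exact_mod_cast h6.2.trans (hYY ν)
      · rw [Fin.append_right]
        refine ⟨?_, (hs ν a (c h) i).trans hYE⟩
        intro h7
        apply hb_nz (hT ν a (c h)) i
        rw [ha ν a (c h) i, h7, zero_mul]
    · rw [Fin.append_right]
      exact ⟨hne ν a (c h), (hs0 ν a (c h)).trans hYE⟩
  have hfew : Few Y (fun ν => ∑ i, ∑ q, ee ν i q) := by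
    have h4 := (Few.const hY (n * (N + n + 1))).mul
      (Few.add hY (Few.add hY fewF (fewB.mul fewF)) (Few.add hY fewB (Few.const hY 1)))
    refine h4.mono ?_
    filter_upwards [hbds] with ν b
    have hent : ∀ i q, ee ν i q ≤ (F ν + B ν * F ν) + (B ν + 1) := by
      intro i q
      rw [hee]
      refine Fin.addCases (fun q => ?_) (fun q => ?_) q
      · rw [Fin.append_left]
        refine Fin.addCases (fun j => ?_) (fun i' => ?_) q
        · rw [Fin.append_left]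
          have k1 := b.1 i j
          have k2 : (r1 ν - 1) * e2 ν j ≤ B ν * F ν :=
            Nat.mul_le_mul ((Nat.sub_le _ _).trans b.2.2.1) (b.2.1 j)
          omega
        · rw [Fin.append_right]
          split_ifs <;> omega
      · rw [Fin.append_right]
        have := b.2.2.1
        omega
    calc ∑ i, ∑ q, ee ν i q ≤ ∑ _i : Fin n, ∑ _q : Fin (N + n + 1),
          ((F ν + B ν * F ν) + (B ν + 1)) :=
          Finset.sum_le_sum fun i _ => Finset.sum_le_sum fun q _ => hent i q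
      _ = _ := by simp; ring
  let S : TD Y (N + n + 1) n :=
    { e := ee
      u := fun ν i => u ν i * v ν ^ (r1 ν - 1)
      w := fun ν => F ν + F ν * r1 ν
      he := hfew
      hu := Filter.Eventually.of_forall fun ν i => by
        have k1 : |u ν i| ≤ 2 ^ F ν := by
          rw [hF]
          have h5 := (hu ν i).2.trans (exp_le_two_pow (by positivity))
          exact_mod_cast h5
        have k2 : |v ν| ≤ 2 ^ F ν := by
          rw [hF]
          have h5 := (hv ν).trans (exp_le_two_pow (by positivity))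
          exact_mod_cast h5
        refine ⟨mul_ne_zero (hu ν i).1 (pow_ne_zero _ (hv0 ν)), ?_⟩
        rw [abs_mul, abs_pow, pow_add, pow_mul]
        refine mul_le_mul k1 ?_ (by positivity) (by positivity)
        calc |v ν| ^ (r1 ν - 1) ≤ ((2 : ℤ) ^ F ν) ^ (r1 ν - 1) :=
              pow_le_pow_left₀ (abs_nonneg _) k2 _
          _ ≤ ((2 : ℤ) ^ F ν) ^ r1 ν :=
              pow_le_pow_right₀ (one_le_pow₀ (by norm_num)) (Nat.sub_le _ _)
      hw := Few.add hY fewF (fewF.mul fewr) }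
  have hST : ∀ᶠ ν in (Uf : Filter ℕ), ∀ a ∈ T' ν, ∀ i, S.T ν i (pt ν a) =
      (u ν i * a i) * (v ν * c0 ν a) ^ (r1 ν - 1) := by
    filter_upwards [hprod] with ν b a h i
    show (u ν i * v ν ^ (r1 ν - 1)) * ∏ q, pt ν a q ^ ee ν i q = _
    rw [b a h i, mul_pow]
    ring
  have hvc : ∀ᶠ ν in (Uf : Filter ℕ), ∀ a ∈ T' ν, v ν * c0 ν a ≠ 0 ∧ z ν a ^ r1 ν ≠ 0 := by
    filter_upwards [heq', h1] with ν b c a h
    have k1 := hb_sum (hT ν a (c h))
    rw [b a h, ← mul_assoc] at k1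
    exact ⟨left_ne_zero_of_mul k1, right_ne_zero_of_mul k1⟩
  have hnvs : ∀ᶠ ν in (Uf : Filter ℕ), ∀ t ∈ (T' ν).image (pt ν), ∀ J : Finset (Fin n),
      J.Nonempty → ∑ i ∈ J, S.T ν i t ≠ 0 := by
    filter_upwards [hST, hvc, h1] with ν b d c t ht J hJ
    obtain ⟨a, h, rfl⟩ := Finset.mem_image.1 ht
    rw [Finset.sum_congr rfl fun i _ => b a h i, ← Finset.sum_mul]
    exact mul_ne_zero ((hT ν a (c h)).nvs J hJ) (pow_ne_zero _ (d a h).1)
  -- the power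
  have hzz : ∀ᶠ ν in (Uf : Filter ℕ), ∃ zf : (Fin (N + n + 1) → ℤ) → ℤ,
      ∀ t ∈ (T' ν).image (pt ν), |zf t| ≤ 2 ^ W ν ∧ ∑ i, S.T ν i t = zf t ^ r1 ν := by
    filter_upwards [hST, hvc, heq', h1, hrinf 1] with ν b d g c hr
    have key : ∀ t, ∃ z' : ℤ, t ∈ (T' ν).image (pt ν) →
        |z'| ≤ 2 ^ W ν ∧ ∑ i, S.T ν i t = z' ^ r1 ν := by
      intro t
      by_cases ht : t ∈ (T' ν).image (pt ν)
      · obtain ⟨a, h, rfl⟩ := Finset.mem_image.1 ht
        refine ⟨v ν * c0 ν a * z ν a, fun _ => ⟨?_, ?_⟩⟩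
        · have k1 : |v ν * c0 ν a * z ν a| ≤ |∑ i, u ν i * a i| := by
            rw [g a h, ← mul_assoc, abs_mul, abs_mul (v ν * c0 ν a), abs_pow]
            have k2 : 1 ≤ |z ν a| := by
              apply Int.one_le_abs
              intro h0
              apply (d a h).2
              rw [h0]
              exact zero_pow (by omega)
            exact mul_le_mul_of_nonneg_left (le_self_pow₀ k2 (by omega)) (abs_nonneg _)
          have k3 := sum_bd (hpow1 ν) (fun i => (hu ν i).2) (hT ν a (c h)).hi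
          have k4 := k3.trans (exp_le_two_pow (by positivity))
          have k5 : ((2 : ℕ) : ℝ) * (((n + 2 : ℕ) : ℝ) * (Y0 ν : ℝ) ^ (1 / ((ν : ℝ) + 1))) =
              ((2 * (n + 2) : ℕ) : ℝ) * (Y0 ν : ℝ) ^ (1 / ((ν : ℝ) + 1)) := by push_cast; ring
          rw [k5, ← hW] at k4
          have k6 : |∑ i, u ν i * a i| ≤ 2 ^ W ν := by exact_mod_cast k4
          exact k1.trans k6
        · rw [Finset.sum_congr rfl fun i _ => b a h i, ← Finset.sum_mul, g a h]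
          obtain ⟨k, hk⟩ : ∃ k, r1 ν = k + 1 := ⟨r1 ν - 1, by omega⟩
          rw [hk, Nat.add_sub_cancel]
          ring
      · exact ⟨0, fun h => absurd h ht⟩
    choose zf hzf using key
    exact ⟨zf, fun t ht => hzf t ht⟩
  obtain ⟨zz, hzz'⟩ := hzz.choice
  obtain ⟨Om', g1, g2, g3⟩ := hcore Y (N + n + 1) n _ hY hOm hb S hnvs r1 W zz hrinf fewr fewW hzz'
  unfold NCt at g3
  choose Cc hCc using g3
  obtain ⟨C1, hC1⟩ : ∃ C1 : ℕ, ∀ i i', Cc i i' ≤ C1 :=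
    ⟨∑ i, ∑ i', Cc i i', fun i i' =>
      (Finset.single_le_sum (f := fun i' => Cc i i') (fun _ _ => Nat.zero_le _)
        (Finset.mem_univ i')).trans
      (Finset.single_le_sum (f := fun i => ∑ i', Cc i i') (fun _ _ => Nat.zero_le _)
        (Finset.mem_univ i))⟩
  have hall : ∀ᶠ ν in (Uf : Filter ℕ), ∀ i i', ∀ t ∈ Om' ν, ∀ t' ∈ Om' ν, ∃ r r' : ℤ, r ≠ 0 ∧
      r' ≠ 0 ∧ |r| ≤ ((Y ν : ℤ) + 2) ^ Cc i i' ∧ |r'| ≤ ((Y ν : ℤ) + 2) ^ Cc i i' ∧
      r * (S.T ν i t * S.T ν i' t') = r' * (S.T ν i t' * S.T ν i' t) :=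
    Filter.eventually_all.2 fun i => Filter.eventually_all.2 fun i' => hCc i i'
  obtain ⟨ν, k1, k2, k3, k4, k5, k6, k7⟩ := (g1.and (g2.one_lt.and (hall.and (hST.and (h1.and
    (hvc.and (ev_ge ((n + 1) * ((E + 1) * C1))))))))).exists
  obtain ⟨t1, ht1, t2, ht2, htne⟩ := Finset.one_lt_card.1 k2
  obtain ⟨a1, ha1, rfl⟩ := Finset.mem_image.1 (k1 ht1)
  obtain ⟨a2, ha2, rfl⟩ := Finset.mem_image.1 (k1 ht2)
  have hne' : a1 ≠ a2 := fun h => htne (by rw [h])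
  have p1 := hT ν a1 (k5 ha1)
  have p2 := hT ν a2 (k5 ha2)
  apply hTn ν a1 (k5 ha1) a2 (k5 ha2) hne'
  obtain ⟨i0, -⟩ := hb_n p1
  refine Near.mono (near_of_ratio (C := (E + 1) * C1) i0 (hb_nz p1) (hb_nz p2) p1.gcd p2.gcd
    fun i => ?_) k7
  obtain ⟨q, q', q1, q2, q3, q4, q5⟩ := k3 i i0 _ ht1 _ ht2
  rw [k4 a1 ha1, k4 a1 ha1, k4 a2 ha2, k4 a2 ha2] at q5
  have hYb : ((Y ν : ℤ) + 2) ^ Cc i i0 ≤ ((Y0 ν : ℤ) + 2) ^ ((E + 1) * C1) := by
    calc ((Y ν : ℤ) + 2) ^ Cc i i0 ≤ ((Y ν : ℤ) + 2) ^ C1 :=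
          pow_le_pow_right₀ (by omega) (hC1 i i0)
      _ ≤ (((Y0 ν : ℤ) + 2) ^ (E + 1)) ^ C1 := by
          refine pow_le_pow_left₀ (by positivity) ?_ _
          rw [hYd]
          push_cast
          have h4 : (1 : ℤ) ≤ ((Y0 ν : ℤ) + 2) ^ E := one_le_pow₀ (by omega)
          have h5 : ((Y0 ν : ℤ)) ^ E ≤ ((Y0 ν : ℤ) + 2) ^ E :=
            pow_le_pow_left₀ (by positivity) (by omega) _
          rw [pow_succ, pow_succ]
          nlinarith [(Nat.cast_nonneg (Y0 ν) : (0 : ℤ) ≤ (Y0 ν : ℤ))]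
      _ = _ := by rw [← pow_mul]
  refine ⟨q, q', q1, q2, q3.trans hYb, q4.trans hYb, ?_⟩
  have w1 := pow_ne_zero (r1 ν - 1) (k6 a1 ha1).1
  have w2 := pow_ne_zero (r1 ν - 1) (k6 a2 ha2).1
  apply mul_left_cancel₀ (mul_ne_zero (mul_ne_zero (hu ν i).1 (hu ν i0).1) (mul_ne_zero w1 w2))
  linear_combination q5

end Pool.Agent.N222.HB
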