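import Pool.Agent.N89.HB.Stm

/-!
# Project HB, leaf QIR: `F T_0 X² - F T_1` is irreducible over `M(T)`.
-/

set_option autoImplicit false

namespace Pool.Agent.N222.HB

open Pool.Agent.N89.HB

/-- `T_1 / T_0` is not a square: `a² T_0 = b² T_1` forces `b = 0` -/
theorem sq_aux (M : Type) [Field M] (n : ℕ) (a b : MvPolynomial (Fin (n + 2)) M) (hb : b ≠ 0)
    (h : a ^ 2 * MvPolynomial.X 0 = b ^ 2 * MvPolynomial.X 1) : False := by
  classical
  have hX0 : (MvPolynomial.X 0 : MvPolynomial (Fin (n + 2)) M) ≠ 0 := MvPolynomial.X_ne_zero 0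
  have hX1 : (MvPolynomial.X 1 : MvPolynomial (Fin (n + 2)) M) ≠ 0 := MvPolynomial.X_ne_zero 1
  have ha : a ≠ 0 := by
    rintro rfl
    have : b ^ 2 * (MvPolynomial.X 1 : MvPolynomial (Fin (n + 2)) M) = 0 := by
      rw [← h]; ring
    exact (mul_ne_zero (pow_ne_zero 2 hb) hX1) this
  have h01 : (0 : Fin (n + 2)) ≠ 1 := by
    simp
  have e := congrArg (MvPolynomial.degreeOf (0 : Fin (n + 2))) h
  rw [sq, sq, MvPolynomial.degreeOf_mul_eq (mul_ne_zero ha ha) hX0,
    MvPolynomial.degreeOf_mul_eq ha ha,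
    MvPolynomial.degreeOf_mul_eq (mul_ne_zero hb hb) hX1,
    MvPolynomial.degreeOf_mul_eq hb hb, MvPolynomial.degreeOf_X, MvPolynomial.degreeOf_X,
    if_pos rfl, if_neg h01] at e
  omega

theorem main : S_QIR := by
  intro M _ n F hF
  set A := algebraMap (MvPolynomial (Fin (n + 2)) M) (Fr (n + 2) M) with hA
  have hinj : Function.Injective A := IsFractionRing.injective _ _
  have hX0 : (MvPolynomial.X 0 : MvPolynomial (Fin (n + 2)) M) ≠ 0 := MvPolynomial.X_ne_zero 0
  have hAX0 : A (MvPolynomial.X 0) ≠ 0 := fun h => hX0 (hinj (by rw [h, map_zero]))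
  have hAF : A F ≠ 0 := fun h => hF (hinj (by rw [h, map_zero]))
  set c : Fr (n + 2) M := A (MvPolynomial.X 1) / A (MvPolynomial.X 0) with hc
  have hirr : Irreducible ((Polynomial.X ^ 2 - Polynomial.C c : Polynomial (Fr (n + 2) M))) := by
    apply X_pow_sub_C_irreducible_of_prime Nat.prime_two
    intro r hr
    obtain ⟨a, b, hb, rfl⟩ := IsFractionRing.div_surjective (A := MvPolynomial (Fin (n + 2)) M) r
    have hb0 : b ≠ 0 := nonZeroDivisors.ne_zero hb
    have hAb : A b ≠ 0 := fun h => hb0 (hinj (by rw [h, map_zero]))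
    apply sq_aux M n a b hb0
    apply hinj
    rw [map_mul, map_mul, map_pow, map_pow]
    rw [hc, div_pow, div_eq_div_iff (pow_ne_zero 2 hAb) hAX0] at hr
    rw [hr, mul_comm]
  have hu : IsUnit (Polynomial.C (A F * A (MvPolynomial.X 0)) : Polynomial (Fr (n + 2) M)) :=
    Polynomial.isUnit_C.2 (isUnit_iff_ne_zero.2 (mul_ne_zero hAF hAX0))
  have key : gpol (RingHom.id M) (![- (F * MvPolynomial.X 1), 0, F * MvPolynomial.X 0] :
      Fin (2 + 1) → MvPolynomial (Fin (n + 2)) M) =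
      Polynomial.C (A F * A (MvPolynomial.X 0)) * (Polynomial.X ^ 2 - Polynomial.C c) := by
    unfold gpol
    rw [Fin.sum_univ_three]
    have h1 : (![- (F * MvPolynomial.X 1), 0, F * MvPolynomial.X 0] :
      Fin (2 + 1) → MvPolynomial (Fin (n + 2)) M) 0 = - (F * MvPolynomial.X 1) := rfl
    have h2 : (![- (F * MvPolynomial.X 1), 0, F * MvPolynomial.X 0] :
      Fin (2 + 1) → MvPolynomial (Fin (n + 2)) M) 1 = 0 := rfl
    have h3 : (![- (F * MvPolynomial.X 1), 0, F * MvPolynomial.X 0] :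
      Fin (2 + 1) → MvPolynomial (Fin (n + 2)) M) 2 = F * MvPolynomial.X 0 := rfl
    rw [h1, h2, h3]
    simp only [MvPolynomial.map_id, map_zero, zero_mul, add_zero]
    rw [← hA, map_neg, map_mul, map_mul]
    have h4 : A F * A (MvPolynomial.X 1) = (A F * A (MvPolynomial.X 0)) * c := by
      rw [hc]; field_simp
    rw [h4]
    simp only [Polynomial.C_neg, Polynomial.C_mul]
    have e0 : (((0 : Fin (2 + 1)) : ℕ)) = 0 := rfl
    have e2 : (((2 : Fin (2 + 1)) : ℕ)) = 2 := rfl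
    rw [e0, e2]
    ring
  rw [key]
  exact (irreducible_isUnit_mul hu).2 hirr

end Pool.Agent.N222.HB
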